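import Pool.Agent.E8helper19.LC.Stm

/-!
# Project LC, piece LC6: a Liouville theorem

A bounded continuous `f` with `f = a * f`, `a(s) = α G(|s|)`: the convolution of `a` with itself is
`α²/(8μ) e^(-μ|s|)` (characteristic functions), so that `f = α²/(8μ) e^(-μ|·|) * f`, which gives
`f'' = -k² f`.
-/

set_option autoImplicit false
open MeasureTheory Filter Topology Set
open scoped ContDiff Real

namespace Pool.Agent.E8helper10.LC

open Pool.Agent.E8helper19.LC

/-! ### the ordinary differential equation -/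

theorem ode (k : ℝ) (hk : 0 < k) (f g : ℝ → ℂ) (hf : ∀ s, HasDerivAt f (g s) s)
    (hg : ∀ s, HasDerivAt g (-(k : ℂ) ^ 2 * f s) s) :
    ∃ a b : ℂ, ∀ s, f s = a * pw k s + b * pw (-k) s := by
  have hk0 : (k : ℂ) ≠ 0 := by exact_mod_cast hk.ne'
  obtain ⟨j, hj⟩ : ∃ j : ℂ, j = (Complex.I * k)⁻¹ := ⟨_, rfl⟩
  have hj1 : Complex.I * k * j = 1 := by
    rw [hj]
    exact mul_inv_cancel₀ (mul_ne_zero Complex.I_ne_zero hk0)
  have hI := Complex.I_sq
  -- the exponentials
  have hpw : ∀ (c s : ℝ), HasDerivAt (fun s => pw c s) (Complex.I * c * pw c s) s := by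
    intro c s
    unfold pw
    have h1 : HasDerivAt (fun s : ℝ => Complex.I * c * (s : ℂ)) (Complex.I * c * 1) s :=
      (Complex.ofRealCLM.hasDerivAt (x := s)).const_mul _
    have h2 := h1.cexp
    convert h2 using 1
    ring
  have hpp : ∀ s, pw k s * pw (-k) s = 1 := by
    intro s
    unfold pw
    rw [← Complex.exp_add]
    have : Complex.I * (k : ℂ) * (s : ℂ) + Complex.I * ((-k : ℝ) : ℂ) * (s : ℂ) = 0 := by
      push_cast
      ring
    rw [this, Complex.exp_zero]
  have hA : ∀ s, HasDerivAt (fun s => (f s + g s * j) * pw (-k) s / 2) 0 s := by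
    intro s
    have h1 := (((hf s).fun_add ((hg s).mul_const j)).fun_mul (hpw (-k) s)).div_const 2
    refine h1.congr_deriv ?_
    push_cast
    linear_combination (-(pw (-k) s / 2)) * (g s * hj1 + k * f s * (k * j * hI - Complex.I * hj1))
  have hB : ∀ s, HasDerivAt (fun s => (f s - g s * j) * pw k s / 2) 0 s := by
    intro s
    have h1 := (((hf s).fun_sub ((hg s).mul_const j)).fun_mul (hpw k s)).div_const 2
    refine h1.congr_deriv ?_
    linear_combination (-(pw k s / 2)) * (g s * hj1 - k * f s * (k * j * hI - Complex.I * hj1))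
  refine ⟨(f 0 + g 0 * j) * pw (-k) 0 / 2, (f 0 - g 0 * j) * pw k 0 / 2, fun s => ?_⟩
  have e1 := is_const_of_deriv_eq_zero (fun x => (hA x).differentiableAt)
    (fun x => (hA x).deriv) s 0
  have e2 := is_const_of_deriv_eq_zero (fun x => (hB x).differentiableAt)
    (fun x => (hB x).deriv) s 0
  beta_reduce at e1 e2
  rw [← e1, ← e2]
  have h := hpp s
  linear_combination (-(f s)) * h

/-! ### the exponential kernel -/

theorem kern (m c : ℝ) (hm : 0 < m) (f : ℝ → ℂ) (hf : BC f)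
    (h : ∀ s, f s = ∫ t, ((c * Real.exp (-(m * |s - t|)) : ℝ) : ℂ) * f t) :
    ∃ g : ℝ → ℂ, (∀ s, HasDerivAt f (g s) s) ∧
      ∀ s, HasDerivAt g (((m ^ 2 - 2 * m * c : ℝ) : ℂ) * f s) s := by
  obtain ⟨C, hC⟩ := hf.bdd
  have hc := hf.cont
  have c1 : Continuous (fun t : ℝ => ((Real.exp (m * t) : ℝ) : ℂ) * f t) :=
    (Complex.continuous_ofReal.comp (Real.continuous_exp.comp (continuous_const.mul
      continuous_id))).mul hc
  have c2 : Continuous (fun t : ℝ => ((Real.exp (-m * t) : ℝ) : ℂ) * f t) :=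
    (Complex.continuous_ofReal.comp (Real.continuous_exp.comp (continuous_const.mul
      continuous_id))).mul hc
  have i1 : ∀ s, IntegrableOn (fun t : ℝ => ((Real.exp (m * t) : ℝ) : ℂ) * f t) (Iic s) := by
    intro s
    refine Integrable.mono' ((integrableOn_exp_mul_Iic hm s).mul_const C)
      c1.aestronglyMeasurable (ae_of_all _ fun t => ?_)
    rw [norm_mul, Complex.norm_real, Real.norm_of_nonneg (Real.exp_pos _).le]
    exact mul_le_mul_of_nonneg_left (hC t) (Real.exp_pos _).le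
  have i2 : ∀ s, IntegrableOn (fun t : ℝ => ((Real.exp (-m * t) : ℝ) : ℂ) * f t) (Ioi s) := by
    intro s
    refine Integrable.mono' ((integrableOn_exp_mul_Ioi (by linarith : -m < 0) s).mul_const C)
      c2.aestronglyMeasurable (ae_of_all _ fun t => ?_)
    rw [norm_mul, Complex.norm_real, Real.norm_of_nonneg (Real.exp_pos _).le]
    exact mul_le_mul_of_nonneg_left (hC t) (Real.exp_pos _).le
  obtain ⟨U, hU⟩ : ∃ U : ℝ → ℂ, U = fun s => ∫ t in Iic s, ((Real.exp (m * t) : ℝ) : ℂ) * f t :=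
    ⟨_, rfl⟩
  obtain ⟨V, hV⟩ : ∃ V : ℝ → ℂ, V = fun s => ∫ t in Ioi s, ((Real.exp (-m * t) : ℝ) : ℂ) * f t :=
    ⟨_, rfl⟩
  have dU : ∀ s, HasDerivAt U (((Real.exp (m * s) : ℝ) : ℂ) * f s) s := by
    intro s
    have h1 : U = fun s => (∫ t in (0 : ℝ)..s, ((Real.exp (m * t) : ℝ) : ℂ) * f t) + U 0 := by
      funext s
      rw [hU]
      beta_reduce
      rw [← intervalIntegral.integral_Iic_sub_Iic (i1 0) (i1 s)]
      ring
    rw [h1]
    exact (c1.integral_hasStrictDerivAt 0 s).hasDerivAt.add_const _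
  have dV : ∀ s, HasDerivAt V (-(((Real.exp (-m * s) : ℝ) : ℂ) * f s)) s := by
    intro s
    have h1 : V = fun s => V 0 - (∫ t in (0 : ℝ)..s, ((Real.exp (-m * t) : ℝ) : ℂ) * f t) := by
      funext s
      rw [hV]
      beta_reduce
      rw [← intervalIntegral.integral_Ioi_sub_Ioi' (i2 0) (i2 s)]
      ring
    rw [h1]
    exact (c2.integral_hasStrictDerivAt 0 s).hasDerivAt.const_sub _
  have key : ∀ s, f s = c * (((Real.exp (-m * s) : ℝ) : ℂ) * U s +
      ((Real.exp (m * s) : ℝ) : ℂ) * V s) := by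
    intro s
    rw [h s]
    have e1 : ∀ t ∈ Iic s, ((c * Real.exp (-(m * |s - t|)) : ℝ) : ℂ) * f t =
        (c * ((Real.exp (-m * s) : ℝ) : ℂ)) * (((Real.exp (m * t) : ℝ) : ℂ) * f t) := by
      intro t ht
      have ht' : t ≤ s := ht
      rw [abs_of_nonneg (by linarith)]
      have : Real.exp (-(m * (s - t))) = Real.exp (-m * s) * Real.exp (m * t) := by
        rw [← Real.exp_add]
        congr 1
        ring
      rw [this]
      push_cast
      ring
    have e2 : ∀ t ∈ Ioi s, ((c * Real.exp (-(m * |s - t|)) : ℝ) : ℂ) * f t =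
        (c * ((Real.exp (m * s) : ℝ) : ℂ)) * (((Real.exp (-m * t) : ℝ) : ℂ) * f t) := by
      intro t ht
      have ht' : s < t := ht
      rw [abs_of_neg (by linarith)]
      have : Real.exp (-(m * -(s - t))) = Real.exp (m * s) * Real.exp (-m * t) := by
        rw [← Real.exp_add]
        congr 1
        ring
      rw [this]
      push_cast
      ring
    have j1 : IntegrableOn (fun t => ((c * Real.exp (-(m * |s - t|)) : ℝ) : ℂ) * f t) (Iic s) :=
      (IntegrableOn.congr_fun ((i1 s).const_mul _) (fun t ht => (e1 t ht).symm) measurableSet_Iic)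
    have j2 : IntegrableOn (fun t => ((c * Real.exp (-(m * |s - t|)) : ℝ) : ℂ) * f t) (Ioi s) :=
      (IntegrableOn.congr_fun ((i2 s).const_mul _) (fun t ht => (e2 t ht).symm) measurableSet_Ioi)
    rw [← intervalIntegral.integral_Iic_add_Ioi j1 j2, setIntegral_congr_fun measurableSet_Iic e1,
      setIntegral_congr_fun measurableSet_Ioi e2, integral_const_mul, integral_const_mul, hU, hV]
    ring
  have ex : ∀ a s : ℝ, HasDerivAt (fun s : ℝ => ((Real.exp (a * s) : ℝ) : ℂ))
      (((a * Real.exp (a * s) : ℝ) : ℂ)) s := by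
    intro a s
    have h1 : HasDerivAt (fun s : ℝ => Real.exp (a * s)) (a * Real.exp (a * s)) s := by
      have h2 := ((hasDerivAt_id' s).const_mul a).exp
      refine h2.congr_deriv ?_
      ring
    exact h1.ofReal_comp
  have ee : ∀ s : ℝ, ((Real.exp (-m * s) : ℝ) : ℂ) * ((Real.exp (m * s) : ℝ) : ℂ) = 1 := by
    intro s
    rw [← Complex.ofReal_mul, ← Real.exp_add]
    have : -m * s + m * s = 0 := by ring
    rw [this, Real.exp_zero]
    rfl
  refine ⟨fun s => c * (-(m : ℂ) * (((Real.exp (-m * s) : ℝ) : ℂ) * U s) +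
    m * (((Real.exp (m * s) : ℝ) : ℂ) * V s)), fun s => ?_, fun s => ?_⟩
  · have h1 : f = fun s => c * (((Real.exp (-m * s) : ℝ) : ℂ) * U s +
      ((Real.exp (m * s) : ℝ) : ℂ) * V s) := funext key
    have h2 := ((((ex (-m) s).fun_mul (dU s)).fun_add ((ex m s).fun_mul (dV s))).const_mul (c : ℂ))
    rw [h1]
    refine h2.congr_deriv ?_
    push_cast
    ring
  · have h2 := (((((ex (-m) s).fun_mul (dU s)).const_mul (-(m : ℂ))).fun_add
      (((ex m s).fun_mul (dV s)).const_mul (m : ℂ))).const_mul (c : ℂ))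
    refine h2.congr_deriv ?_
    have h3 := ee s
    have h4 := key s
    push_cast at h3 h4 ⊢
    linear_combination (-(m : ℂ) ^ 2) * h4 - 2 * m * c * f s * h3

/-! ### the measures -/

theorem wd_int (a : ℝ → ℝ) (ha : Integrable a) (h0 : ∀ x, 0 ≤ a x) (g : ℝ → ℂ) :
    ∫ x, g x ∂(volume.withDensity fun x => ENNReal.ofReal (a x)) = ∫ x, (a x : ℂ) * g x := by
  rw [integral_withDensity_eq_integral_toReal_smul₀ ha.aemeasurable.ennreal_ofReal
    (ae_of_all _ fun x => ENNReal.ofReal_lt_top)]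
  refine integral_congr_ae (ae_of_all _ fun x => ?_)
  beta_reduce
  rw [ENNReal.toReal_ofReal (h0 x), Complex.real_smul]

theorem pw_eq (p x : ℝ) : Complex.exp (p * x * Complex.I) = pw p x := by
  unfold pw
  congr 1
  ring

theorem char_exp (m p : ℝ) (hm : 0 < m) : Integrable (fun x : ℝ => Real.exp (-(m * |x|))) ∧
    ∫ x : ℝ, ((Real.exp (-(m * |x|)) : ℝ) : ℂ) * pw p x = ((2 * m / (m ^ 2 + p ^ 2) : ℝ) : ℂ) := by
  have e1 : ∀ x ∈ Iic (0 : ℝ), Real.exp (-(m * |x|)) = Real.exp (m * x) := by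
    intro x hx
    have hx' : x ≤ 0 := hx
    rw [abs_of_nonpos hx']
    congr 1
    ring
  have e2 : ∀ x ∈ Ioi (0 : ℝ), Real.exp (-(m * |x|)) = Real.exp (-m * x) := by
    intro x hx
    have hx' : 0 < x := hx
    rw [abs_of_pos hx']
    congr 1
    ring
  have hint : Integrable (fun x : ℝ => Real.exp (-(m * |x|))) := by
    rw [← integrableOn_univ, ← Iic_union_Ioi (a := (0 : ℝ))]
    exact ((integrableOn_exp_mul_Iic hm 0).congr_fun (fun x hx => (e1 x hx).symm)
      measurableSet_Iic).union ((integrableOn_exp_mul_Ioi (by linarith : -m < 0) 0).congr_fun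
      (fun x hx => (e2 x hx).symm) measurableSet_Ioi)
  refine ⟨hint, ?_⟩
  have r1 : 0 < ((m : ℂ) + Complex.I * p).re := by simpa using hm
  have r2 : (-(m : ℂ) + Complex.I * p).re < 0 := by simpa using hm
  have g1 : ∀ x ∈ Iic (0 : ℝ), ((Real.exp (-(m * |x|)) : ℝ) : ℂ) * pw p x =
      Complex.exp (((m : ℂ) + Complex.I * p) * x) := by
    intro x hx
    rw [e1 x hx]
    unfold pw
    rw [Complex.ofReal_exp, ← Complex.exp_add]
    congr 1
    push_cast
    ring
  have g2 : ∀ x ∈ Ioi (0 : ℝ), ((Real.exp (-(m * |x|)) : ℝ) : ℂ) * pw p x =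
      Complex.exp ((-(m : ℂ) + Complex.I * p) * x) := by
    intro x hx
    rw [e2 x hx]
    unfold pw
    rw [Complex.ofReal_exp, ← Complex.exp_add]
    congr 1
    push_cast
    ring
  have j1 : IntegrableOn (fun x : ℝ => ((Real.exp (-(m * |x|)) : ℝ) : ℂ) * pw p x) (Iic 0) :=
    (integrableOn_exp_mul_complex_Iic r1 0).congr_fun (fun x hx => (g1 x hx).symm)
      measurableSet_Iic
  have j2 : IntegrableOn (fun x : ℝ => ((Real.exp (-(m * |x|)) : ℝ) : ℂ) * pw p x) (Ioi 0) :=
    (integrableOn_exp_mul_complex_Ioi r2 0).congr_fun (fun x hx => (g2 x hx).symm)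
      measurableSet_Ioi
  rw [← intervalIntegral.integral_Iic_add_Ioi j1 j2, setIntegral_congr_fun measurableSet_Iic g1,
    setIntegral_congr_fun measurableSet_Ioi g2, integral_exp_mul_complex_Iic r1,
    integral_exp_mul_complex_Ioi r2]
  have n1 : (m : ℂ) + Complex.I * p ≠ 0 := fun h => by rw [h] at r1; simp at r1
  have n2 : -(m : ℂ) + Complex.I * p ≠ 0 := fun h => by rw [h] at r2; simp at r2
  have n3 : (m : ℂ) ^ 2 + (p : ℂ) ^ 2 ≠ 0 := by
    have : 0 < m ^ 2 + p ^ 2 := by positivity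
    exact_mod_cast this.ne'
  have hI := Complex.I_sq
  simp only [Complex.ofReal_zero, mul_zero, Complex.exp_zero]
  push_cast
  rw [div_add_div _ _ n1 n2, div_eq_div_iff (mul_ne_zero n1 n2) n3]
  linear_combination (-2 * (m : ℂ) * (p : ℂ) ^ 2) * hI

theorem GK_nonneg (μ ρ : ℝ) : 0 ≤ Gk μ ρ := by
  unfold Gk
  refine setIntegral_nonneg measurableSet_Ioi fun t ht => ?_
  have ht' : (0 : ℝ) < t := ht
  positivity

/-- **LC6: the Liouville theorem.** -/
theorem t_LIOU (h : S_FT) (h2 : S_G) : S_LIOU := by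
  intro α k f hk hα hf hA
  have hα0 : 0 < α := by linarith
  obtain ⟨m, hmd⟩ : ∃ m, m = mu α k := ⟨_, rfl⟩
  have hm : 0 < m := by
    rw [hmd]
    unfold mu
    apply Real.sqrt_pos.2
    nlinarith
  have hm2 : m ^ 2 = α ^ 2 / 4 - k ^ 2 := by
    rw [hmd]
    unfold mu
    apply Real.sq_sqrt
    nlinarith
  obtain ⟨c, hcd⟩ : ∃ c, c = α ^ 2 / (8 * m) := ⟨_, rfl⟩
  have hc0 : 0 < c := by
    rw [hcd]
    positivity
  have hGi : Integrable (fun x => α * Gk m |x|) := (h2.2.2.2.2.1 m hm).const_mul α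
  have hG0 : ∀ x, 0 ≤ α * Gk m |x| := fun x => mul_nonneg hα0.le (GK_nonneg _ _)
  have hEi : Integrable (fun x : ℝ => c * Real.exp (-(m * |x|))) := (char_exp m 0 hm).1.const_mul c
  have hE0 : ∀ x : ℝ, 0 ≤ c * Real.exp (-(m * |x|)) := fun x =>
    mul_nonneg hc0.le (Real.exp_pos _).le
  obtain ⟨ν, hν⟩ : ∃ ν : Measure ℝ, ν = volume.withDensity fun x => ENNReal.ofReal (α * Gk m |x|) :=
    ⟨_, rfl⟩
  obtain ⟨β, hβ⟩ : ∃ β : Measure ℝ, β = volume.withDensity fun x =>
    ENNReal.ofReal (c * Real.exp (-(m * |x|))) := ⟨_, rfl⟩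
  have fν : IsFiniteMeasure ν := by
    rw [hν]
    exact isFiniteMeasure_withDensity_ofReal hGi.2
  have fβ : IsFiniteMeasure β := by
    rw [hβ]
    exact isFiniteMeasure_withDensity_ofReal hEi.2
  have hconv : Measure.conv ν ν = β := by
    apply Measure.ext_of_charFun
    funext p
    rw [charFun_conv, charFun_apply_real, charFun_apply_real]
    have h3 : ∫ x, Complex.exp (p * x * Complex.I) ∂ν = ((α / (2 * √(p ^ 2 + m ^ 2)) : ℝ) : ℂ) := by
      rw [hν, wd_int _ hGi hG0]
      have h4 := h.1 m p hm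
      have h5 : (fun x : ℝ => ((α * Gk m |x| : ℝ) : ℂ) * Complex.exp (p * x * Complex.I)) =
          fun x => (α : ℂ) * (((Gk m |x| : ℝ) : ℂ) * pw p x) := by
        funext x
        rw [pw_eq]
        push_cast
        ring
      rw [h5, integral_const_mul, h4]
      push_cast
      ring
    have h6 : ∫ x, Complex.exp (p * x * Complex.I) ∂β = ((c * (2 * m / (m ^ 2 + p ^ 2)) : ℝ) : ℂ) := by
      rw [hβ, wd_int _ hEi hE0]
      have h5 : (fun x : ℝ => ((c * Real.exp (-(m * |x|)) : ℝ) : ℂ) *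
          Complex.exp (p * x * Complex.I)) =
          fun x => (c : ℂ) * (((Real.exp (-(m * |x|)) : ℝ) : ℂ) * pw p x) := by
        funext x
        rw [pw_eq]
        push_cast
        ring
      rw [h5, integral_const_mul, (char_exp m p hm).2]
      push_cast
      ring
    rw [h3, h6, ← Complex.ofReal_mul]
    congr 1
    have h7 : 0 < p ^ 2 + m ^ 2 := by positivity
    have h8 : √(p ^ 2 + m ^ 2) * √(p ^ 2 + m ^ 2) = p ^ 2 + m ^ 2 := Real.mul_self_sqrt h7.le
    have h9 : 0 < √(p ^ 2 + m ^ 2) := Real.sqrt_pos.2 h7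
    rw [hcd]
    have e1 : α / (2 * √(p ^ 2 + m ^ 2)) * (α / (2 * √(p ^ 2 + m ^ 2))) =
        α ^ 2 / (4 * (√(p ^ 2 + m ^ 2) * √(p ^ 2 + m ^ 2))) := by
      field_simp
      ring
    rw [e1, h8]
    field_simp
    ring
  obtain ⟨C, hC⟩ := hf.bdd
  -- the first equation
  have k1 : ∀ s, f s = ∫ x, f (s - x) ∂ν := by
    intro s
    rw [hν, wd_int _ hGi hG0]
    conv_lhs => rw [← hA s]
    unfold A0
    rw [← hmd]
    rw [← integral_sub_left_eq_self (fun x : ℝ => ((α * Gk m |x| : ℝ) : ℂ) * f (s - x)) volume s]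
    refine integral_congr_ae (ae_of_all _ fun t => ?_)
    beta_reduce
    rw [sub_sub_cancel]
  -- the second equation
  have k2 : ∀ s, f s = ∫ t, ((c * Real.exp (-(m * |s - t|)) : ℝ) : ℂ) * f t := by
    intro s
    have h3 : ∫ z, f (s - z) ∂(Measure.conv ν ν) = ∫ x, ∫ y, f (s - (x + y)) ∂ν ∂ν := by
      apply integral_conv
      refine Integrable.of_bound (hf.cont.comp (continuous_const.sub
        continuous_id)).aestronglyMeasurable C (ae_of_all _ fun x => hC _)
    have h4 : ∫ x, ∫ y, f (s - (x + y)) ∂ν ∂ν = ∫ x, f (s - x) ∂ν := by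
      refine integral_congr_ae (ae_of_all _ fun x => ?_)
      beta_reduce
      rw [k1 (s - x)]
      refine integral_congr_ae (ae_of_all _ fun y => ?_)
      beta_reduce
      rw [sub_sub]
    have h5 : f s = ∫ z, f (s - z) ∂β := by
      rw [← hconv, h3, h4, ← k1 s]
    rw [hβ, wd_int _ hEi hE0] at h5
    rw [h5]
    rw [← integral_sub_left_eq_self (fun x : ℝ => ((c * Real.exp (-(m * |x|)) : ℝ) : ℂ) * f (s - x))
      volume s]
    refine integral_congr_ae (ae_of_all _ fun t => ?_)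
    beta_reduce
    rw [sub_sub_cancel]
  obtain ⟨g, hg1, hg2⟩ := kern m c hm f hf k2
  refine ode k hk f g hg1 fun s => ?_
  refine (hg2 s).congr_deriv ?_
  have h3 : m ^ 2 - 2 * m * c = -k ^ 2 := by
    rw [hcd]
    field_simp
    linear_combination 8 * hm2
  rw [h3]
  push_cast
  ring

end Pool.Agent.E8helper10.LC
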