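import Pool.Agent.E8helper19.LC.Stm3
import Pool.Agent.E8helper71.LC.D2b

/-!
# Project LC, piece LC33: the limit of the kernel `D`, constant independent of `k`

Adaptation of `Pool/Agent/E8helper71/LC/D2b.lean` (LC26).
-/

set_option autoImplicit false
open MeasureTheory Filter Topology Set
open scoped ContDiff Real

namespace Pool.Agent.E8helper10.LC

open Pool.Agent.E8helper19.LC Pool.Agent.E8helper57.LC Pool.Agent.E8helper71.LC

section
variable {γ : ℝ → P} {L k α c C₁ C₂ : ℝ} {H Q : ℝ → ℝ}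

/-- the constant -/
noncomputable def KB (c C₁ C₂ : ℝ) (H Q : ℝ → ℝ) : ℝ :=
  243 * (C₂ * (∫ x in Ioi (0 : ℝ), x ^ 5 * H x) * (1 + 1 / 192) +
    C₁ ^ 2 * (∫ x in Ioi (0 : ℝ), x ^ 6 * Q x) / c ^ 7 +
    C₁ * (∫ x in Ioi (0 : ℝ), x ^ 5 * H x) / c ^ 6)

theorem ptA' (X : Dat γ L k α c C₁ C₂ H Q) (hα4 : 4 * k ≤ α) (s : ℝ) :
    |α ^ 2 / 2 * (∫ t, Dk α k γ t s) - α ^ 3 / (32 * mu α k ^ 3) * kap2 γ s| ≤
      KB c C₁ C₂ H Q / α ^ 2 := by
  have hα := X.toHyp.α0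
  have hμ := X.toHyp.μ0
  have hc := X.c0
  obtain ⟨b1, b2, b3⟩ := mu_bd X.hk hα4
  have hm5 := m5_nonneg X
  have hm6 := m6_nonneg X
  obtain ⟨hf, hsym⟩ := int_sym X s
  have hra := ratio_bd hα b1
  set μ := mu α k
  have hcμ : 0 < μ * c := mul_pos hμ hc
  obtain ⟨i5, v5⟩ := momAbs (X.Hint 5 (by norm_num)) hμ
  obtain ⟨i6, v6⟩ := momAbs (X.Qint 6 (by norm_num)) hcμ
  set m5 := ∫ x in Ioi (0 : ℝ), x ^ 5 * H x with hm5d
  set m6 := ∫ x in Ioi (0 : ℝ), x ^ 6 * Q x with hm6d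
  set J := ∫ h, kap2 γ (s + h / 2) * (|h| ^ 3 * H (μ * |h|)) with hJ
  set I := ∫ t, Dk α k γ t s with hI
  set κ := kap2 γ s with hκ
  have iE : Integrable (fun h : ℝ => α * (μ * C₂ * (|h| ^ 5 * H (μ * |h|)) +
      μ ^ 2 * C₁ ^ 2 * (|h| ^ 6 * Q (μ * c * |h|)))) :=
    ((i5.const_mul _).add (i6.const_mul _)).const_mul _
  have k1 : |I - α * μ / 24 * J| ≤ α * (μ * C₂ * (2 * m5 / μ ^ (5 + 1)) +
      μ ^ 2 * C₁ ^ 2 * (2 * m6 / (μ * c) ^ (6 + 1))) := by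
    have e : I - α * μ / 24 * J = ∫ h, (Dk α k γ (s + h) s -
        α * μ / 24 * (kap2 γ (s + h / 2) * (|h| ^ 3 * H (μ * |h|)))) := by
      rw [integral_sub (int_D X s) (hf.const_mul _), integral_const_mul, hI, int_shift]
    have e2 : α * (μ * C₂ * (2 * m5 / μ ^ (5 + 1)) +
      μ ^ 2 * C₁ ^ 2 * (2 * m6 / (μ * c) ^ (6 + 1))) =
        ∫ h : ℝ, α * (μ * C₂ * (|h| ^ 5 * H (μ * |h|)) +
          μ ^ 2 * C₁ ^ 2 * (|h| ^ 6 * Q (μ * c * |h|))) := by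
      rw [integral_const_mul, integral_add (i5.const_mul _) (i6.const_mul _),
        integral_const_mul, integral_const_mul, v5, v6]
    rw [e, e2, ← Real.norm_eq_abs]
    refine norm_integral_le_of_norm_le iE ?_
    filter_upwards [Pool.Agent.E8helper57.LC.ae_ne 0] with h hh
    rw [Real.norm_eq_abs]
    exact Dk_exp X s hh
  have k2 : α ^ 2 / 2 * I - α ^ 3 / (32 * μ ^ 3) * κ = α ^ 2 / 2 * (I - α * μ / 24 * J) +
      α ^ 3 * μ / 48 * (J - κ * (3 / (2 * μ ^ 4))) := by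
    field_simp
    ring
  have hC2 := X.C₂0
  have p1 : |α ^ 2 / 2 * (I - α * μ / 24 * J)| ≤
      α ^ 3 / μ ^ 5 * (C₂ * m5 + C₁ ^ 2 * m6 / c ^ 7) := by
    rw [abs_mul, abs_of_pos (by positivity : (0 : ℝ) < α ^ 2 / 2)]
    refine (mul_le_mul_of_nonneg_left k1 (by positivity)).trans (le_of_eq ?_)
    field_simp
    ring
  have p2 : |α ^ 3 * μ / 48 * (J - κ * (3 / (2 * μ ^ 4)))| ≤
      α ^ 3 / μ ^ 5 * (C₂ * m5 / 192) := by
    rw [abs_mul, abs_of_pos (by positivity : (0 : ℝ) < α ^ 3 * μ / 48)]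
    refine (mul_le_mul_of_nonneg_left hsym (by positivity)).trans (le_of_eq ?_)
    field_simp
    ring
  have q1 : α ^ 3 / μ ^ 5 * (C₂ * m5 + C₁ ^ 2 * m6 / c ^ 7) ≤
      243 / α ^ 2 * (C₂ * m5 + C₁ ^ 2 * m6 / c ^ 7) :=
    mul_le_mul_of_nonneg_right hra (by positivity)
  have q2 : α ^ 3 / μ ^ 5 * (C₂ * m5 / 192) ≤ 243 / α ^ 2 * (C₂ * m5 / 192) :=
    mul_le_mul_of_nonneg_right hra (by positivity)
  have q3 : 0 ≤ 243 / α ^ 2 * (C₁ * m5 / c ^ 6) := by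
    have := X.C₁0
    positivity
  rw [k2]
  refine (abs_add_le _ _).trans ?_
  have : KB c C₁ C₂ H Q / α ^ 2 = 243 / α ^ 2 * (C₂ * m5 + C₁ ^ 2 * m6 / c ^ 7) +
      243 / α ^ 2 * (C₂ * m5 / 192) + 243 / α ^ 2 * (C₁ * m5 / c ^ 6) := by
    unfold KB
    rw [← hm5d, ← hm6d]
    field_simp
    ring
  rw [this]
  linarith

theorem ptB' (X : Dat γ L k α c C₁ C₂ H Q) (hα4 : 4 * k ≤ α) (s : ℝ) (hs : L + 1 ≤ |s|) :
    |α ^ 2 / 2 * (∫ t, Dk α k γ t s) - α ^ 3 / (32 * mu α k ^ 3) * kap2 γ s| ≤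
      KB c C₁ C₂ H Q / α ^ 2 / (|s| - L) ^ 2 := by
  have hα := X.toHyp.α0
  have hμ := X.toHyp.μ0
  have hc := X.c0
  have hC1 := X.C₁0
  have hC2 := X.C₂0
  obtain ⟨b1, b2, b3⟩ := mu_bd X.hk hα4
  have hm5 := m5_nonneg X
  have hm6 := m6_nonneg X
  have hra := ratio_bd hα b1
  set μ := mu α k
  have hcμ : 0 < μ * c := mul_pos hμ hc
  obtain ⟨i5, v5⟩ := momAbs (X.Hint 5 (by norm_num)) hcμ
  set m5 := ∫ x in Ioi (0 : ℝ), x ^ 5 * H x with hm5d
  set m6 := ∫ x in Ioi (0 : ℝ), x ^ 6 * Q x with hm6d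
  have hu : 0 < |s| - L := by linarith
  rw [X.κ0 s (by linarith), mul_zero, sub_zero, int_shift]
  have k0 : 0 ≤ ∫ h, Dk α k γ (s + h) s :=
    integral_nonneg fun h => (Dk_bd X.toHyp (s + h) s).1
  have k1 : ∫ h, Dk α k γ (s + h) s ≤
      α * μ * C₁ / (|s| - L) ^ 2 * (2 * m5 / (μ * c) ^ (5 + 1)) := by
    rw [← v5, ← integral_const_mul]
    refine integral_mono_of_nonneg (Eventually.of_forall fun h => (Dk_bd X.toHyp (s + h) s).1)
      (i5.const_mul _) ?_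
    filter_upwards [Pool.Agent.E8helper57.LC.ae_ne 0] with h hh
    exact Dk_far X s hh hs
  rw [abs_of_nonneg (by positivity)]
  have k2 : α ^ 2 / 2 * (∫ h, Dk α k γ (s + h) s) ≤
      α ^ 3 / μ ^ 5 * (C₁ * m5 / c ^ 6) / (|s| - L) ^ 2 := by
    refine (mul_le_mul_of_nonneg_left k1 (by positivity)).trans (le_of_eq ?_)
    field_simp
    ring
  refine k2.trans ?_
  refine div_le_div_of_nonneg_right ?_ (by positivity)
  refine (mul_le_mul_of_nonneg_right hra (by positivity)).trans ?_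
  have : KB c C₁ C₂ H Q / α ^ 2 = 243 / α ^ 2 * (C₂ * m5 + C₁ ^ 2 * m6 / c ^ 7) +
      243 / α ^ 2 * (C₂ * m5 / 192) + 243 / α ^ 2 * (C₁ * m5 / c ^ 6) := by
    unfold KB
    rw [← hm5d, ← hm6d]
    field_simp
    ring
  rw [this]
  have q1 : 0 ≤ 243 / α ^ 2 * (C₂ * m5 + C₁ ^ 2 * m6 / c ^ 7) := by positivity
  have q2 : 0 ≤ 243 / α ^ 2 * (C₂ * m5 / 192) := by positivity
  linarith

theorem KB_nonneg (X : Dat γ L k α c C₁ C₂ H Q) : 0 ≤ KB c C₁ C₂ H Q := by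
  have hm5 := m5_nonneg X
  have hm6 := m6_nonneg X
  have hC1 := X.C₁0
  have hC2 := X.C₂0
  have hc := X.c0
  unfold KB
  positivity

theorem pt' (X : Dat γ L k α c C₁ C₂ H Q) (hα4 : 4 * k ≤ α) (s : ℝ) :
    |α ^ 2 / 2 * (∫ t, Dk α k γ t s) - α ^ 3 / (32 * mu α k ^ 3) * kap2 γ s| ≤
      KB c C₁ C₂ H Q / α ^ 2 * ((L + 1) ^ 2 + 1) * (1 + s ^ 2)⁻¹ := by
  have hα := X.toHyp.α0
  have hK := KB_nonneg X
  have hL := X.crv.pos
  have hK' : 0 ≤ KB c C₁ C₂ H Q / α ^ 2 := by positivity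
  rcases le_or_gt (L + 1) |s| with h | h
  · refine (ptB' X hα4 s h).trans ?_
    rw [div_eq_mul_inv, mul_assoc]
    refine mul_le_mul_of_nonneg_left ?_ hK'
    have hu : 1 ≤ |s| - L := by linarith
    rw [← div_eq_mul_inv, inv_eq_one_div, div_le_div_iff₀ (by positivity) (by positivity), one_mul]
    have e : s ^ 2 = ((|s| - L) + L) ^ 2 := by rw [sub_add_cancel, sq_abs]
    rw [e]
    nlinarith [mul_nonneg hL.le (by linarith : 0 ≤ |s| - L - 1), sq_nonneg (|s| - L - 1)]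
  · refine (ptA' X hα4 s).trans ?_
    rw [mul_assoc]
    refine le_mul_of_one_le_right hK' ?_
    rw [← div_eq_mul_inv, le_div_iff₀ (by positivity), one_mul]
    have : s ^ 2 ≤ (L + 1) ^ 2 := by
      rw [← sq_abs s]
      exact pow_le_pow_left₀ (abs_nonneg _) h.le 2
    linarith

end

/-- **LC33.** -/
theorem t_U3 (h : S_CHORD) (h2 : S_TAY) (h3 : S_G) (h4 : S_TAY2) : S_U3 := by
  intro γ L hγ hne
  obtain ⟨c, hc0, hc1, hc⟩ := h γ L hγ hne
  obtain ⟨C₁, hC₁, a1, a2, a3, a4, a5⟩ := h2 γ L hγ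
  obtain ⟨C₂, hC₂, b1, b2, b3, b4⟩ := h4 γ L hγ
  obtain ⟨g1, g2, g3, g4, g5, H, Q, g6, g7, g8, g9, g10, g11, g12, g13, g14⟩ := h3
  have hX : ∀ k, 0 < k → ∀ α, 4 * k ≤ α → Dat γ L k α c C₁ C₂ H Q := by
    intro k hk α hα
    exact
      { crv := hγ
        hk := hk
        hα := by linarith
        c0 := hc0
        chord := hc
        chord' := a1
        Gpos := g1
        Gcont := g2
        Ganti := g3
        Gint := g5
        Hmeas := g6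
        Hpos := fun x hx => (g8 x hx).1
        Hanti := fun x y hx hxy => (g9 x y hx hxy).1
        GH := g10
        Hint := g12
        C₁0 := hC₁
        C₂0 := hC₂
        T1 := a2
        T2 := b1
        κle := b2
        κ2 := b4
        κc := a4
        κ0 := a5
        Qmeas := g7
        Qpos := fun x hx => (g8 x hx).2
        Qanti := fun x y hx hxy => (g9 x y hx hxy).2
        GQ := g11
        Qint := g13
        H3 := g14 }
  have hK := KB_nonneg (hX 1 one_pos (4 * 1) le_rfl)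
  have hL := hγ.pos
  refine ⟨KB c C₁ C₂ H Q * ((L + 1) ^ 2 + 1) * π + 1, by positivity, fun k hk =>
    ⟨4 * k, by linarith, ?_⟩⟩
  intro α hα
  have hα0 : 0 < α := by linarith
  have h1 : ∫ s, |α ^ 2 / 2 * (∫ t, Dk α k γ t s) - α ^ 3 / (32 * mu α k ^ 3) * kap2 γ s| ≤
      ∫ s : ℝ, KB c C₁ C₂ H Q / α ^ 2 * ((L + 1) ^ 2 + 1) * (1 + s ^ 2)⁻¹ := by
    refine integral_mono_of_nonneg (Eventually.of_forall fun s => abs_nonneg _)
      (integrable_inv_one_add_sq.const_mul _) (Eventually.of_forall fun s => ?_)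
    exact pt' (hX k hk α hα) hα s
  refine h1.trans ?_
  rw [integral_const_mul, integral_univ_inv_one_add_sq]
  have : KB c C₁ C₂ H Q / α ^ 2 * ((L + 1) ^ 2 + 1) * π =
      KB c C₁ C₂ H Q * ((L + 1) ^ 2 + 1) * π / α ^ 2 := by ring
  rw [this]
  refine div_le_div_of_nonneg_right ?_ (by positivity)
  linarith

end Pool.Agent.E8helper10.LC
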